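import Pool.Agent.helper62.QU.Spec

/-! Row IDN of project QU (MP_07c750_an): the basic identities. -/

open scoped MatrixGroups ContDiff Topology UpperHalfPlane
open UpperHalfPlane MeasureTheory Filter Set

namespace Pool.Agent.QU

/-- integrable with integral zero -/
def IDN_Z (f : ℍ → ℝ) : Prop := Integrable f ∧ ∫ z : ℍ, f z = 0

theorem IDN_Z_add {f g : ℍ → ℝ} (hf : IDN_Z f) (hg : IDN_Z g) : IDN_Z fun z => f z + g z :=
  ⟨hf.1.add hg.1, by rw [integral_add hf.1 hg.1, hf.2, hg.2, add_zero]⟩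

theorem IDN_Z_mul (c : ℝ) {f : ℍ → ℝ} (hf : IDN_Z f) : IDN_Z fun z => c * f z :=
  ⟨hf.1.const_mul c, by rw [integral_const_mul, hf.2, mul_zero]⟩

theorem IDN_int {f : ℍ → ℝ} (hf : Continuous f) (hc : HasCompactSupport f) :
    Integrable f := hf.integrable_of_hasCompactSupport hc

theorem IDN (h1 : CA1_stmt) (h2 : CA2_stmt) (h3 : DXI_stmt) : IDN_stmt := by
  intro u μ hu2 hus
  obtain ⟨c1, c2, c3, c4, c5, c6, c7, c8, c9, c10⟩ := h1 ℝ
  -- compact supports
  have sX : ∀ φ : ℍ → ℝ, HasCompactSupport φ → HasCompactSupport (dX φ) := fun φ h =>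
    IsCompact.of_isClosed_subset h (isClosed_tsupport _) (c10 φ).1
  have sY : ∀ φ : ℍ → ℝ, HasCompactSupport φ → HasCompactSupport (dY φ) := fun φ h =>
    IsCompact.of_isClosed_subset h (isClosed_tsupport _) (c10 φ).2
  -- continuity
  have k1 : ∀ φ : ℍ → ℝ, CD 1 φ → Continuous φ := fun φ h =>
    (c1 φ).1 (c2 φ 0 1 (by norm_num) h)
  have kX : ∀ φ : ℍ → ℝ, CD 1 φ → Continuous (dX φ) ∧ Continuous (dY φ) := by
    intro φ h
    have h0 : CD (((0 : ℕ) : WithTop ℕ∞) + 1) φ := by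
      rw [Nat.cast_zero, zero_add]
      exact h
    have h5 := c5 φ 0 h0
    rw [Nat.cast_zero] at h5
    exact ⟨(c1 _).1 h5.1, (c1 _).1 h5.2⟩
  have hu1 : CD 1 u := c2 u 1 2 (by norm_num) hu2
  have h21 : CD (((1 : ℕ) : WithTop ℕ∞) + 1) u := by
    have : (((1 : ℕ) : WithTop ℕ∞) + 1) = 2 := by norm_num
    rw [this]
    exact hu2
  obtain ⟨ha, hy⟩ := c5 u 1 h21
  rw [Nat.cast_one] at ha hy
  have hDe : dD u = fun z => dY u z + (-1 / 2 : ℝ) • u z := by
    funext z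
    simp only [dD, smul_eq_mul]
    ring
  have hhalf : CD 1 (fun z => (-1 / 2 : ℝ) • u z) :=
    c4 (fun _ => (-1 / 2 : ℝ)) u 1 (c9 _ _) hu1
  have hb : CD 1 (dD u) := by
    rw [hDe]
    exact c3 _ _ 1 hy hhalf
  have sa := sX u hus
  have sy := sY u hus
  have sb : HasCompactSupport (dD u) := by
    rw [hDe]
    exact sy.add (HasCompactSupport.mul_left hus)
  -- derivatives of `dD u`
  have hconstX : ∀ z, dX (fun z => (-1 / 2 : ℝ) • u z) z = (-1 / 2 : ℝ) * dX u z := by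
    intro z
    have h := (c7 (fun _ => (-1 / 2 : ℝ)) u (c9 _ _) hu1 z).1
    rw [h, (c8 (-1 / 2 : ℝ) z).1]
    simp
  have hconstY : ∀ z, dY (fun z => (-1 / 2 : ℝ) • u z) z = (-1 / 2 : ℝ) * dY u z := by
    intro z
    have h := (c7 (fun _ => (-1 / 2 : ℝ)) u (c9 _ _) hu1 z).2
    rw [h, (c8 (-1 / 2 : ℝ) z).2]
    simp
  have hbX : ∀ z, dX (dD u) z = dX (dY u) z - dX u z / 2 := by
    intro z
    have h := (c6 (dY u) (fun z => (-1 / 2 : ℝ) • u z) hy hhalf z).1
    rw [hDe, h, hconstX]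
    ring
  have hbY : ∀ z, dY (dD u) z = dY (dY u) z - dY u z / 2 := by
    intro z
    have h := (c6 (dY u) (fun z => (-1 / 2 : ℝ) • u z) hy hhalf z).2
    rw [hDe, h, hconstY]
    ring
  have hYX : ∀ z, dY (dX u) z = dX (dY u) z + dX u z := fun z => (h2 ℝ u hu2 z).1
  have hL : ∀ z, lap u z = -dX (dX u) z - dY (dY u) z + dY u z := fun z => (h2 ℝ u hu2 z).2
  have hDz : ∀ z, dD u z = dY u z - u z / 2 := fun z => rfl
  -- divergence lemmas
  have pX : ∀ φ : ℍ → ℝ, CD 1 φ → HasCompactSupport φ → IDN_Z (dX φ) := fun φ h hs =>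
    ⟨IDN_int (kX φ h).1 (sX φ hs), (h3 ℝ φ h hs).1⟩
  have pY : ∀ φ : ℍ → ℝ, CD 1 φ → HasCompactSupport φ → IDN_Z (fun z => dY φ z - φ z) := by
    intro φ h hs
    have i1 := IDN_int (kX φ h).2 (sY φ hs)
    have i2 := IDN_int (k1 φ h) hs
    exact ⟨i1.sub i2, by rw [integral_sub i1 i2, (h3 ℝ φ h hs).2, sub_self]⟩
  -- products
  have cm : ∀ φ ψ : ℍ → ℝ, CD 1 φ → CD 1 ψ → CD 1 (fun z => φ z • ψ z) :=
    fun φ ψ h h' => c4 φ ψ 1 h h'
  have mX : ∀ φ ψ : ℍ → ℝ, CD 1 φ → CD 1 ψ → ∀ z,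
      dX (fun z => φ z • ψ z) z = φ z * dX ψ z + dX φ z * ψ z :=
    fun φ ψ h h' z => (c7 φ ψ h h' z).1
  have mY : ∀ φ ψ : ℍ → ℝ, CD 1 φ → CD 1 ψ → ∀ z,
      dY (fun z => φ z • ψ z) z = φ z * dY ψ z + dY φ z * ψ z :=
    fun φ ψ h h' z => (c7 φ ψ h h' z).2
  have sm : ∀ φ ψ : ℍ → ℝ, HasCompactSupport φ → HasCompactSupport (fun z => φ z • ψ z) :=
    fun φ ψ h => HasCompactSupport.mul_right (f := φ) (f' := ψ) h
  have ia : Integrable (fun z => dX u z ^ 2) := by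
    have e : (fun z => dX u z ^ 2) = fun z => dX u z • dX u z := by
      funext z
      rw [smul_eq_mul, sq]
    rw [e]
    exact IDN_int (k1 _ (cm _ _ ha ha)) (sm _ _ sa)
  have ib : Integrable (fun z => dD u z ^ 2) := by
    have e : (fun z => dD u z ^ 2) = fun z => dD u z • dD u z := by
      funext z
      rw [smul_eq_mul, sq]
    rw [e]
    exact IDN_int (k1 _ (cm _ _ hb hb)) (sm _ _ sb)
  have iu : Integrable (fun z => u z ^ 2) := by
    have e : (fun z => u z ^ 2) = fun z => u z • u z := by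
      funext z
      rw [smul_eq_mul, sq]
    rw [e]
    exact IDN_int (k1 _ (cm _ _ hu1 hu1)) (sm _ _ hus)
  constructor
  · have q1 := IDN_Z_mul (-1) (pX _ (cm _ _ ha hb) (sm (dX u) (dD u) sa))
    have q2 := IDN_Z_mul (1 / 2) (pY _ (cm _ _ ha ha) (sm (dX u) (dX u) sa))
    have q3 := IDN_Z_mul (-1 / 2) (pY _ (cm _ _ hb hb) (sm (dD u) (dD u) sb))
    have q4 := IDN_Z_mul (1 / 8 - μ / 2) (pY _ (cm _ _ hu1 hu1) (sm u u hus))
    have q := IDN_Z_add (IDN_Z_add (IDN_Z_add q1 q2) q3) q4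
    have e : (fun z => dX u z ^ 2 + (lap u z - μ * u z) * dD u z) = fun z =>
        -1 * dX (fun z => dX u z • dD u z) z + 1 / 2 * (dY (fun z => dX u z • dX u z) z -
          dX u z • dX u z) + -1 / 2 * (dY (fun z => dD u z • dD u z) z - dD u z • dD u z) +
          (1 / 8 - μ / 2) * (dY (fun z => u z • u z) z - u z • u z) := by
      funext z
      rw [mX _ _ ha hb, mY _ _ ha ha, mY _ _ hb hb, mY _ _ hu1 hu1, hbX, hbY, hL, hYX, hDz]
      simp only [smul_eq_mul]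
      ring
    rw [← e] at q
    have i2 : Integrable (fun z => (lap u z - μ * u z) * dD u z) := by
      have := q.1.sub ia
      have e2 : ((fun z => dX u z ^ 2 + (lap u z - μ * u z) * dD u z) - fun z => dX u z ^ 2) =
          fun z => (lap u z - μ * u z) * dD u z := by
        funext z
        show dX u z ^ 2 + (lap u z - μ * u z) * dD u z - dX u z ^ 2 = _
        ring
      rwa [e2] at this
    have q5 := q.2
    rw [integral_add ia i2] at q5
    linarith
  · have q1 := pX _ (cm _ _ hu1 ha) (sm u (dX u) hus)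
    have q2 := pY _ (cm _ _ hu1 hb) (sm u (dD u) hus)
    have q := IDN_Z_add q1 q2
    have e : (fun z => (dD u z ^ 2 + dX u z ^ 2 + 1 / 4 * u z ^ 2) - u z * lap u z) = fun z =>
        dX (fun z => u z • dX u z) z + (dY (fun z => u z • dD u z) z - u z • dD u z) := by
      funext z
      rw [mX _ _ hu1 ha, mY _ _ hu1 hb, hbY, hL, hDz]
      simp only [smul_eq_mul]
      ring
    rw [← e] at q
    have i3 : Integrable (fun z => dD u z ^ 2 + dX u z ^ 2 + 1 / 4 * u z ^ 2) :=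
      (ib.add ia).add (iu.const_mul (1 / 4))
    have i2 : Integrable (fun z => u z * lap u z) := by
      have := i3.sub q.1
      have e2 : ((fun z => dD u z ^ 2 + dX u z ^ 2 + 1 / 4 * u z ^ 2) -
          fun z => (dD u z ^ 2 + dX u z ^ 2 + 1 / 4 * u z ^ 2) - u z * lap u z) =
          fun z => u z * lap u z := by
        funext z
        show (dD u z ^ 2 + dX u z ^ 2 + 1 / 4 * u z ^ 2) -
          ((dD u z ^ 2 + dX u z ^ 2 + 1 / 4 * u z ^ 2) - u z * lap u z) = _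
        ring
      rwa [e2] at this
    have q5 := q.2
    rw [integral_sub i3 i2] at q5
    have q6 : ∫ z : ℍ, (dD u z ^ 2 + dX u z ^ 2 + 1 / 4 * u z ^ 2) =
        (∫ z : ℍ, dD u z ^ 2) + (∫ z : ℍ, dX u z ^ 2) + 1 / 4 * ∫ z : ℍ, u z ^ 2 := by
      have iab : Integrable (fun z => dD u z ^ 2 + dX u z ^ 2) := ib.add ia
      have iuc : Integrable (fun z => 1 / 4 * u z ^ 2) := iu.const_mul (1 / 4)
      rw [integral_add iab iuc, integral_add ib ia, integral_const_mul]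
    rw [q6] at q5
    linarith

end Pool.Agent.QU
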